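import Pool.Agent.H96R3.BC.Stmts

/-! # Task THETA of the project BIGCOEF -/

set_option autoImplicit false

open Finset MeasureTheory

namespace Pool.Agent.H993R3.BC

open Pool.Agent.H96R3.BC

/-- pointwise bound -/
theorem exp_bd (m : ℕ) (t v : ℝ) (ht : 0 < t) (hv : 0 ≤ v) :
    Real.exp (-(v * t)) * (1 + v) ^ m ≤
      (m.factorial : ℝ) * (2 / t) ^ m * Real.exp (t / 2) * Real.exp (-(t / 2) * v) := by
  have h1 : ((1 + v) * (t / 2)) ^ m / (m.factorial : ℝ) ≤ Real.exp ((1 + v) * (t / 2)) :=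
    Real.pow_div_factorial_le_exp _ (by positivity) m
  have hm : (0 : ℝ) < (m.factorial : ℝ) := by positivity
  rw [div_le_iff₀ hm, mul_pow] at h1
  have h2 : (1 + v) ^ m ≤ (m.factorial : ℝ) * (2 / t) ^ m * Real.exp ((1 + v) * (t / 2)) := by
    have h3 : (1 + v) ^ m = (1 + v) ^ m * (t / 2) ^ m * (2 / t) ^ m := by
      rw [mul_assoc, ← mul_pow]
      have : t / 2 * (2 / t) = 1 := by field_simp
      rw [this, one_pow, mul_one]
    rw [h3]
    calc (1 + v) ^ m * (t / 2) ^ m * (2 / t) ^ m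
        ≤ Real.exp ((1 + v) * (t / 2)) * (m.factorial : ℝ) * (2 / t) ^ m := by
          apply mul_le_mul_of_nonneg_right h1 (by positivity)
      _ = _ := by ring
  calc Real.exp (-(v * t)) * (1 + v) ^ m
      ≤ Real.exp (-(v * t)) * ((m.factorial : ℝ) * (2 / t) ^ m * Real.exp ((1 + v) * (t / 2))) :=
        mul_le_mul_of_nonneg_left h2 (Real.exp_pos _).le
    _ = (m.factorial : ℝ) * (2 / t) ^ m * (Real.exp (-(v * t)) * Real.exp ((1 + v) * (t / 2))) := by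
        ring
    _ = _ := by
        rw [← Real.exp_add]
        rw [mul_assoc ((m.factorial : ℝ) * (2 / t) ^ m), ← Real.exp_add]
        congr 2
        ring

theorem intg (g : ℝ → ℝ) (hg : Continuous g) (K : ℝ) (m : ℕ)
    (hb : ∀ v : ℝ, 0 ≤ v → |g v| ≤ K * (1 + v) ^ m) (t : ℝ) (ht : 0 < t) :
    IntegrableOn (fun v : ℝ => Real.exp (-(v * t)) * g v) (Set.Ioi 0) := by
  have hK : 0 ≤ K := by
    have := hb 0 le_rfl
    simp at this
    exact le_trans (abs_nonneg _) this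
  have h1 : IntegrableOn (fun v : ℝ => K * ((m.factorial : ℝ) * (2 / t) ^ m * Real.exp (t / 2) *
      Real.exp (-(t / 2) * v))) (Set.Ioi 0) := by
    apply Integrable.const_mul
    apply Integrable.const_mul
    exact exp_neg_integrableOn_Ioi 0 (by positivity)
  refine Integrable.mono' h1 ?_ ?_
  · apply Continuous.aestronglyMeasurable
    fun_prop
  · rw [ae_restrict_iff' measurableSet_Ioi]
    refine Filter.Eventually.of_forall ?_
    intro v hv
    have hv' : (0 : ℝ) ≤ v := le_of_lt hv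
    rw [Real.norm_eq_abs, abs_mul, abs_of_pos (Real.exp_pos _)]
    calc Real.exp (-(v * t)) * |g v| ≤ Real.exp (-(v * t)) * (K * (1 + v) ^ m) :=
          mul_le_mul_of_nonneg_left (hb v hv') (Real.exp_pos _).le
      _ = K * (Real.exp (-(v * t)) * (1 + v) ^ m) := by ring
      _ ≤ _ := mul_le_mul_of_nonneg_left (exp_bd m t v ht hv') hK

theorem fub (h1 : TaskKer1) (h2 : TaskKer2) (k : ℕ) (hk : 1 ≤ k) (f : ℝ → ℝ) (hf : Continuous f)
    (a b : ℝ) (ha : 0 ≤ a) (hab : a ≤ b) (t : ℝ) (ht : 0 < t) :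
    IntegrableOn (fun v : ℝ => Real.exp (-(v * t)) * (∫ u in a..b, f u * KK k u v)) (Set.Ioi 0) ∧
    ∫ v in Set.Ioi (0:ℝ), Real.exp (-(v * t)) * (∫ u in a..b, f u * KK k u v) =
      (∫ u in a..b, f u * Real.exp (-(u * t⁻¹))) / t ^ k := by
  obtain ⟨F, hF⟩ : ∃ F : ℝ, ∀ u ∈ Set.Icc a b, |f u| ≤ F := by
    obtain ⟨F, hF⟩ := (isCompact_Icc (a := a) (b := b)).exists_bound_of_continuousOn hf.continuousOn
    exact ⟨F, fun u hu => by simpa using hF u hu⟩
  have hcont := (h1 k hk).2.1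
  have hint : Integrable (Function.uncurry fun v u : ℝ => Real.exp (-(v * t)) * (f u * KK k u v))
      ((volume.restrict (Set.Ioi (0:ℝ))).prod (volume.restrict (Set.Ioc a b))) := by
    have hb1 : IntegrableOn (fun v : ℝ => Real.exp (-(v * t)) * (3 * v ^ (k - 1))) (Set.Ioi 0) := by
      apply intg _ (by fun_prop) 3 (k - 1) _ t ht
      intro v hv
      rw [abs_of_nonneg (by positivity)]
      have : v ^ (k - 1) ≤ (1 + v) ^ (k - 1) := pow_le_pow_left₀ hv (by linarith) _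
      linarith
    have hb2 : IntegrableOn (fun _ : ℝ => F) (Set.Ioc a b) :=
      (continuous_const (y := F)).integrableOn_Icc.mono_set Set.Ioc_subset_Icc_self
    have hb := Integrable.mul_prod hb1 hb2
    refine Integrable.mono' hb ?_ ?_
    · apply Continuous.aestronglyMeasurable
      have hc2 : Continuous fun x : ℝ × ℝ => KK k x.2 x.1 :=
        hcont.comp (continuous_snd.prodMk continuous_fst)
      have : (Function.uncurry fun v u : ℝ => Real.exp (-(v * t)) * (f u * KK k u v)) =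
          fun x : ℝ × ℝ => Real.exp (-(x.1 * t)) * (f x.2 * KK k x.2 x.1) := by
        ext x; rfl
      rw [this]
      fun_prop
    · rw [Measure.prod_restrict, ae_restrict_iff' (measurableSet_Ioi.prod measurableSet_Ioc)]
      refine Filter.Eventually.of_forall ?_
      rintro ⟨v, u⟩ ⟨hv, hu⟩
      simp only [Function.uncurry_apply_pair, Real.norm_eq_abs, abs_mul]
      simp only [Set.mem_Ioi] at hv
      simp only [Set.mem_Ioc] at hu
      rw [abs_of_pos (Real.exp_pos _), mul_assoc]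
      apply mul_le_mul_of_nonneg_left _ (Real.exp_pos _).le
      rw [mul_comm]
      have hk1 := (h2 k hk u v (by linarith [hu.1]) hv.le).1
      have hF1 := hF u ⟨hu.1.le, hu.2⟩
      exact mul_le_mul hk1 hF1 (abs_nonneg _) (by positivity)
  have hswap := integral_integral_swap hint
  have hl0 : (fun v : ℝ => Real.exp (-(v * t)) * (∫ u in a..b, f u * KK k u v)) =
      fun v : ℝ => ∫ u in Set.Ioc a b, Real.exp (-(v * t)) * (f u * KK k u v) := by
    ext v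
    rw [intervalIntegral.integral_of_le hab, integral_const_mul]
  have hl : ∫ v in Set.Ioi (0:ℝ), Real.exp (-(v * t)) * (∫ u in a..b, f u * KK k u v) =
      ∫ v in Set.Ioi (0:ℝ), ∫ u in Set.Ioc a b, Real.exp (-(v * t)) * (f u * KK k u v) := by
    rw [hl0]
  refine ⟨?_, ?_⟩
  · rw [hl0]
    exact hint.integral_prod_left
  rw [hl, hswap, intervalIntegral.integral_of_le hab, ← integral_div]
  apply setIntegral_congr_fun measurableSet_Ioc
  intro u hu
  simp only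
  have h3 := ((h1 k hk).2.2 u t (by linarith [hu.1]) ht).2
  calc ∫ v in Set.Ioi (0:ℝ), Real.exp (-(v * t)) * (f u * KK k u v)
      = ∫ v in Set.Ioi (0:ℝ), f u * (Real.exp (-(v * t)) * KK k u v) := by
        congr 1; ext v; ring
    _ = f u * (Real.exp (-(u / t)) / t ^ k) := by rw [integral_const_mul, h3]
    _ = _ := by rw [div_eq_mul_inv u t]; ring

/-- the terms of the theta series -/
noncomputable def E (Q j₀ : ℕ) (y : ℕ → ℝ) (s : ℝ) (n : ℕ) : ℝ :=
  cf y n * (vv Q j₀ n) ^ 2 * Real.exp (-(vv Q j₀ n * s))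

theorem vv_pos (Q j₀ n : ℕ) (hj : 1 ≤ j₀) (hn : 1 ≤ n) : 0 < vv Q j₀ n := by
  unfold vv
  have : (0:ℝ) < n := by exact_mod_cast hn
  have : (0:ℝ) < j₀ := by exact_mod_cast hj
  positivity

theorem vv_nonneg (Q j₀ n : ℕ) : 0 ≤ vv Q j₀ n := by
  unfold vv
  positivity

theorem vv_pow (Q j₀ n : ℕ) (hQ : 1 ≤ Q) : (vv Q j₀ n) ^ (12 * Q) = ((n : ℝ) / (j₀ : ℝ) ^ (2 * Q)) ^ 3 := by
  unfold vv
  have hb : (0:ℝ) ≤ (n : ℝ) / (j₀ : ℝ) ^ (2 * Q) := by positivity
  have hQ' : (Q : ℝ) ≠ 0 := by positivity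
  rw [← Real.rpow_natCast _ (12 * Q), ← Real.rpow_mul hb, ← Real.rpow_natCast _ 3]
  congr 1
  push_cast
  field_simp
  norm_num

theorem cf_zero (y : ℕ → ℝ) : cf y 0 = 0 := by
  simp [cf]

theorem cf_one (y : ℕ → ℝ) : cf y 1 = 1 := by
  simp [cf]

theorem sumE (Q j₀ : ℕ) (y : ℕ → ℝ) (hQ : 1 ≤ Q) (hj : 1 ≤ j₀)
    (hC : ∃ C : ℝ, ∀ n : ℕ, 1 ≤ n → |cf y n| ≤ C * n) (s : ℝ) (hs : 0 < s) :
    Summable (E Q j₀ y s) := by
  obtain ⟨C, hC⟩ := hC
  have hC0 : 0 ≤ C := by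
    have := hC 1 le_rfl
    simp only [Nat.cast_one, mul_one] at this
    exact le_trans (abs_nonneg _) this
  have hj' : (0:ℝ) < j₀ := by exact_mod_cast hj
  set N : ℝ := (j₀ : ℝ) ^ (2 * Q) with hN
  have hN0 : 0 < N := by positivity
  set m : ℕ := 12 * Q + 2 with hm
  have hsum : Summable (fun n : ℕ => (C * (m.factorial : ℝ) / s ^ m * N ^ 3) * (1 / (n : ℝ) ^ 2)) := by
    apply Summable.mul_left
    exact Real.summable_one_div_nat_pow.mpr (by norm_num)
  refine Summable.of_norm_bounded hsum ?_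
  intro n
  rcases Nat.eq_zero_or_pos n with h0 | hn
  · subst h0
    simp [E, cf_zero]
  have hn' : (0:ℝ) < n := by exact_mod_cast hn
  have hv := vv_pos Q j₀ n hj hn
  set v := vv Q j₀ n with hvdef
  have h1 : (v * s) ^ m / (m.factorial : ℝ) ≤ Real.exp (v * s) :=
    Real.pow_div_factorial_le_exp _ (by positivity) m
  have hmf : (0 : ℝ) < (m.factorial : ℝ) := by positivity
  have h2 : Real.exp (-(v * s)) ≤ (m.factorial : ℝ) / (v * s) ^ m := by
    rw [Real.exp_neg, inv_eq_one_div, div_le_div_iff₀ (Real.exp_pos _) (by positivity), one_mul]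
    rw [div_le_iff₀ hmf] at h1
    linarith
  have h3 : v ^ 2 * Real.exp (-(v * s)) ≤ (m.factorial : ℝ) / s ^ m * N ^ 3 / (n : ℝ) ^ 3 := by
    calc v ^ 2 * Real.exp (-(v * s)) ≤ v ^ 2 * ((m.factorial : ℝ) / (v * s) ^ m) :=
          mul_le_mul_of_nonneg_left h2 (by positivity)
      _ = (m.factorial : ℝ) / s ^ m / v ^ (12 * Q) := by
          rw [hm, mul_pow, pow_add v]
          field_simp
      _ = _ := by
          rw [hvdef, vv_pow Q j₀ n hQ, ← hN, div_pow]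
          field_simp
  rw [Real.norm_eq_abs, E, mul_assoc, abs_mul, ← hvdef]
  rw [abs_of_nonneg (a := v ^ 2 * Real.exp (-(v * s))) (by positivity)]
  calc |cf y n| * (v ^ 2 * Real.exp (-(v * s)))
      ≤ (C * n) * ((m.factorial : ℝ) / s ^ m * N ^ 3 / (n : ℝ) ^ 3) :=
        mul_le_mul (hC n hn) h3 (by positivity) (by positivity)
    _ = _ := by field_simp

theorem UU_nonneg (j₀ j : ℕ) : 0 ≤ UU j₀ j := Real.sqrt_nonneg _

theorem UU_mono (j₀ : ℕ) {i j : ℕ} (h : i ≤ j) : UU j₀ i ≤ UU j₀ j := by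
  unfold UU
  apply Real.sqrt_le_sqrt
  have : (i:ℝ) ≤ j := by exact_mod_cast h
  gcongr

theorem UU_self (j₀ : ℕ) (h : 1 ≤ j₀) : UU j₀ j₀ = 1 := by
  unfold UU
  have : (j₀:ℝ) ≠ 0 := by positivity
  rw [div_self this, Real.sqrt_one]

theorem UU_tendsto (j₀ : ℕ) (h : 1 ≤ j₀) :
    Filter.Tendsto (fun m : ℕ => UU j₀ (j₀ + m)) Filter.atTop Filter.atTop := by
  unfold UU
  apply Real.tendsto_sqrt_atTop.comp
  have hj : (0:ℝ) < j₀ := by exact_mod_cast h
  apply Filter.Tendsto.atTop_div_const hj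
  apply tendsto_natCast_atTop_atTop.comp
  exact Filter.tendsto_atTop_mono (fun m => Nat.le_add_left m j₀) Filter.tendsto_id

/-- the Laplace transform of the contribution of a cell -/
theorem lapB (h1 : TaskKer1) (h2 : TaskKer2) (Q j₀ : ℕ) (y : ℕ → ℝ) (f : ℝ → ℝ)
    (hf : Continuous f) (j : ℕ) (t : ℝ) (ht : 0 < t) :
    IntegrableOn (fun v : ℝ => Real.exp (-(v * t)) * Bf Q j₀ y f j v) (Set.Ioi 0) ∧
    ∫ v in Set.Ioi (0:ℝ), Real.exp (-(v * t)) * Bf Q j₀ y f j v =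
      (∑ n ∈ CC Q j, E Q j₀ y t⁻¹ n -
        ∫ u in (UU j₀ j)..(UU j₀ (j + 1)), f u * Real.exp (-(u * t⁻¹))) / t ^ (4 * Q + 4) := by
  have hk : 1 ≤ 4 * Q + 4 := by omega
  obtain ⟨hi, he⟩ := fub h1 h2 (4 * Q + 4) hk f hf (UU j₀ j) (UU j₀ (j + 1)) (UU_nonneg _ _)
    (UU_mono _ (Nat.le_succ j)) t ht
  have hKi : ∀ n : ℕ, IntegrableOn (fun v : ℝ => (cf y n * (vv Q j₀ n) ^ 2) *
      (Real.exp (-(v * t)) * KK (4 * Q + 4) (vv Q j₀ n) v)) (Set.Ioi 0) := fun n =>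
    Integrable.const_mul ((h1 (4 * Q + 4) hk).2.2 (vv Q j₀ n) t (vv_nonneg _ _ _) ht).1 _
  have heq : (fun v : ℝ => Real.exp (-(v * t)) * Bf Q j₀ y f j v) = fun v : ℝ =>
      (∑ n ∈ CC Q j, (cf y n * (vv Q j₀ n) ^ 2) *
        (Real.exp (-(v * t)) * KK (4 * Q + 4) (vv Q j₀ n) v)) -
      Real.exp (-(v * t)) * ∫ u in (UU j₀ j)..(UU j₀ (j + 1)), f u * KK (4 * Q + 4) u v := by
    ext v
    unfold Bf
    rw [mul_sub, Finset.mul_sum]
    congr 1
    apply Finset.sum_congr rfl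
    intro n _
    ring
  have hs : IntegrableOn (fun v : ℝ => ∑ n ∈ CC Q j, (cf y n * (vv Q j₀ n) ^ 2) *
        (Real.exp (-(v * t)) * KK (4 * Q + 4) (vv Q j₀ n) v)) (Set.Ioi 0) :=
    integrable_finsetSum _ (fun n _ => hKi n)
  rw [heq]
  refine ⟨Integrable.sub hs hi, ?_⟩
  rw [integral_sub hs hi, he, integral_finsetSum _ (fun n _ => hKi n), sub_div, Finset.sum_div]
  congr 1
  apply Finset.sum_congr rfl
  intro n _
  rw [integral_const_mul, ((h1 (4 * Q + 4) hk).2.2 (vv Q j₀ n) t (vv_nonneg _ _ _) ht).2, E,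
    div_eq_mul_inv (vv Q j₀ n) t]
  ring

/-- sums over the cells -/
theorem sum_cells (Q j₀ : ℕ) (y : ℕ → ℝ) (s : ℝ) (hj : 1 ≤ j₀)
    (hlow : ∀ p, p ≤ j₀ ^ (2 * Q) → y p = 0) (m : ℕ) :
    (vv Q j₀ 1) ^ 2 * Real.exp (-(vv Q j₀ 1 * s)) + ∑ i ∈ range m, ∑ n ∈ CC Q (j₀ + i), E Q j₀ y s n =
      ∑ n ∈ range ((j₀ + m) ^ (2 * Q) + 1), E Q j₀ y s n := by
  induction m with
  | zero =>
    simp only [Finset.range_zero, Finset.sum_empty, add_zero]
    have hz : ∀ n ∈ range (j₀ ^ (2 * Q) + 1), n ≠ 1 → E Q j₀ y s n = 0 := by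
      intro n hn hn1
      have hn' : n ≤ j₀ ^ (2 * Q) := by
        have := Finset.mem_range.mp hn
        omega
      have : cf y n = 0 := by
        unfold cf
        split_ifs with hsq
        · have hn0 : n ≠ 0 := hsq.ne_zero
          obtain ⟨p, hp, hpn⟩ := Nat.exists_prime_and_dvd hn1
          apply Finset.prod_eq_zero (i := p)
          · exact Nat.mem_primeFactors.mpr ⟨hp, hpn, hn0⟩
          · exact hlow p (le_trans (Nat.le_of_dvd (Nat.pos_of_ne_zero hn0) hpn) hn')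
        · rfl
      simp [E, this]
    have h1m : 1 ∈ range (j₀ ^ (2 * Q) + 1) := by
      rw [Finset.mem_range]
      have : 1 ≤ j₀ ^ (2 * Q) := Nat.one_le_pow _ _ hj
      omega
    rw [Finset.sum_eq_single_of_mem 1 h1m hz]
    simp [E, cf_one]
  | succ m ih =>
    rw [Finset.sum_range_succ, ← add_assoc, ih]
    have hle : (j₀ + m) ^ (2 * Q) + 1 ≤ (j₀ + (m + 1)) ^ (2 * Q) + 1 := by
      have : (j₀ + m) ^ (2 * Q) ≤ (j₀ + (m + 1)) ^ (2 * Q) := Nat.pow_le_pow_left (by omega) _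
      omega
    have hcc : CC Q (j₀ + m) = Finset.Ico ((j₀ + m) ^ (2 * Q) + 1) ((j₀ + (m + 1)) ^ (2 * Q) + 1) := by
      ext n
      simp only [CC, Finset.mem_Ioc, Finset.mem_Ico]
      have : j₀ + m + 1 = j₀ + (m + 1) := by ring
      rw [this]
      omega
    rw [hcc, Finset.range_eq_Ico, Finset.sum_Ico_consecutive _ (Nat.zero_le _) hle,
      ← Finset.range_eq_Ico]

/-- the basic identity: `t ^ k L(t) = Θ(1/t) - L(1/t)` -/
theorem lap (h1 : TaskKer1) (h2 : TaskKer2) (Q j₀ : ℕ) (a0 y : ℕ → ℝ) (f : ℝ → ℝ) (hQ : 1 ≤ Q)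
    (hj : 2 ≤ j₀) (hsol : Sol Q j₀ a0 y f)
    (hC : ∃ C : ℝ, ∀ n : ℕ, 1 ≤ n → |cf y n| ≤ C * n) (t : ℝ) (ht : 0 < t) :
    t ^ (4 * Q + 4) * ∫ v in Set.Ioi (0:ℝ), Real.exp (-(v * t)) * f v =
      ∑' n : ℕ, E Q j₀ y t⁻¹ n - ∫ v in Set.Ioi (0:ℝ), Real.exp (-(v * t⁻¹)) * f v := by
  have hk : 1 ≤ 4 * Q + 4 := by omega
  have hj1 : 1 ≤ j₀ := by omega
  have hf := hsol.cont
  have hfi : ∀ s : ℝ, 0 < s →
      IntegrableOn (fun v : ℝ => Real.exp (-(v * s)) * f v) (Set.Ioi 0) := by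
    intro s hs
    obtain ⟨κ, hκ⟩ := hsol.bd
    exact intg f hf κ (4 * Q + 3) hκ s hs
  have hlim : ∀ s : ℝ, 0 < s → Filter.Tendsto
      (fun m : ℕ => ∫ u in (0:ℝ)..(UU j₀ (j₀ + m)), f u * Real.exp (-(u * s))) Filter.atTop
      (nhds (∫ v in Set.Ioi (0:ℝ), Real.exp (-(v * s)) * f v)) := by
    intro s hs
    have h := intervalIntegral_tendsto_integral_Ioi 0 (hfi s hs) (UU_tendsto j₀ hj1)
    refine h.congr ?_
    intro m
    apply intervalIntegral.integral_congr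
    intro u _
    simp only
    ring
  obtain ⟨M, hM, hMb⟩ := hsol.sumb
  -- the sum over the cells
  have hFi : ∀ i : ℕ, IntegrableOn
      (fun v : ℝ => Real.exp (-(v * t)) * Bf Q j₀ y f (j₀ + i) v) (Set.Ioi 0) :=
    fun i => (lapB h1 h2 Q j₀ y f hf (j₀ + i) t ht).1
  have hM0 : ∀ i, 0 ≤ M i := by
    intro i
    have := hMb i 1 (by norm_num)
    simp only [one_pow, mul_one] at this
    exact le_trans (abs_nonneg _) this
  have hpow : IntegrableOn (fun v : ℝ => Real.exp (-(v * t)) * v ^ (8 * Q + 7)) (Set.Ioi 0) := by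
    apply intg _ (by fun_prop) 1 (8 * Q + 7) _ t ht
    intro v hv
    rw [abs_of_nonneg (by positivity), one_mul]
    exact pow_le_pow_left₀ hv (by linarith) _
  have hnorm : Summable fun i : ℕ => ∫ v in Set.Ioi (0:ℝ),
      ‖Real.exp (-(v * t)) * Bf Q j₀ y f (j₀ + i) v‖ := by
    refine Summable.of_nonneg_of_le (fun i => ?_) (fun i => ?_)
      (hM.mul_right (∫ v in Set.Ioi (0:ℝ), Real.exp (-(v * t)) * v ^ (8 * Q + 7)))
    · exact integral_nonneg fun v => norm_nonneg _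
    · rw [← integral_const_mul]
      refine setIntegral_mono_on (hFi i).norm (hpow.const_mul (M i)) measurableSet_Ioi ?_
      intro v hv
      have hv' : (0:ℝ) ≤ v := le_of_lt hv
      rw [Real.norm_eq_abs, abs_mul, abs_of_pos (Real.exp_pos _)]
      calc Real.exp (-(v * t)) * |Bf Q j₀ y f (j₀ + i) v|
          ≤ Real.exp (-(v * t)) * (M i * v ^ (8 * Q + 7)) :=
            mul_le_mul_of_nonneg_left (hMb i v hv') (Real.exp_pos _).le
        _ = _ := by ring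
  have hsum := hasSum_integral_of_summable_integral_norm hFi hnorm
  -- the integral of the sum
  obtain ⟨hi01, he01⟩ := fub h1 h2 (4 * Q + 4) hk f hf 0 1 le_rfl zero_le_one t ht
  obtain ⟨hiK, heK⟩ := (h1 (4 * Q + 4) hk).2.2 (vv Q j₀ 1) t (vv_nonneg _ _ _) ht
  have hval : ∫ v in Set.Ioi (0:ℝ), ∑' i : ℕ, Real.exp (-(v * t)) * Bf Q j₀ y f (j₀ + i) v =
      (∫ v in Set.Ioi (0:ℝ), Real.exp (-(v * t)) * f v) -
        (vv Q j₀ 1) ^ 2 * (Real.exp (-(vv Q j₀ 1 / t)) / t ^ (4 * Q + 4)) +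
        (∫ u in (0:ℝ)..1, f u * Real.exp (-(u * t⁻¹))) / t ^ (4 * Q + 4) := by
    have hA1 : Integrable (fun v : ℝ => Real.exp (-(v * t)) * f v -
        (vv Q j₀ 1) ^ 2 * (Real.exp (-(v * t)) * KK (4 * Q + 4) (vv Q j₀ 1) v))
        (volume.restrict (Set.Ioi 0)) := (hfi t ht).sub (hiK.const_mul _)
    rw [← he01, ← heK, ← integral_const_mul, ← integral_sub (hfi t ht) (hiK.const_mul _),
      ← integral_add hA1 hi01]
    apply setIntegral_congr_fun measurableSet_Ioi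
    intro v hv
    have hv' : (0:ℝ) ≤ v := le_of_lt hv
    simp only
    rw [tsum_mul_left, hsol.eq v hv']
    ring
  rw [hval] at hsum
  have htend := hsum.tendsto_sum_nat
  have hpart : ∀ m : ℕ, ∑ i ∈ range m, (∫ v in Set.Ioi (0:ℝ),
      Real.exp (-(v * t)) * Bf Q j₀ y f (j₀ + i) v) =
      ((∑ n ∈ range ((j₀ + m) ^ (2 * Q) + 1), E Q j₀ y t⁻¹ n) -
        (vv Q j₀ 1) ^ 2 * Real.exp (-(vv Q j₀ 1 * t⁻¹)) -
        ((∫ u in (0:ℝ)..(UU j₀ (j₀ + m)), f u * Real.exp (-(u * t⁻¹))) -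
          ∫ u in (0:ℝ)..1, f u * Real.exp (-(u * t⁻¹)))) / t ^ (4 * Q + 4) := by
    intro m
    have hc : Continuous fun u : ℝ => f u * Real.exp (-(u * t⁻¹)) := by fun_prop
    have hadj := intervalIntegral.sum_integral_adjacent_intervals
      (f := fun u : ℝ => f u * Real.exp (-(u * t⁻¹))) (μ := volume)
      (a := fun i : ℕ => UU j₀ (j₀ + i)) (n := m) (fun i _ => hc.intervalIntegrable _ _)
    simp only [add_zero] at hadj
    rw [UU_self j₀ hj1] at hadj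
    have hsub := intervalIntegral.integral_interval_sub_left
      (f := fun u : ℝ => f u * Real.exp (-(u * t⁻¹))) (μ := volume)
      (a := 0) (b := UU j₀ (j₀ + m)) (c := 1) (hc.intervalIntegrable _ _) (hc.intervalIntegrable _ _)
    rw [hsub, ← sum_cells Q j₀ y t⁻¹ hj1 hsol.low m, ← hadj]
    rw [Finset.sum_congr rfl (fun i _ => (lapB h1 h2 Q j₀ y f hf (j₀ + i) t ht).2),
      ← Finset.sum_div, Finset.sum_sub_distrib]
    congr 1
    have : ∑ i ∈ range m, ∫ u in (UU j₀ (j₀ + i))..(UU j₀ (j₀ + i + 1)),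
        f u * Real.exp (-(u * t⁻¹)) = ∑ i ∈ range m, ∫ u in (UU j₀ (j₀ + i))..(UU j₀ (j₀ + (i + 1))),
        f u * Real.exp (-(u * t⁻¹)) := rfl
    rw [this]
    ring
  have hlim2 : Filter.Tendsto (fun m : ℕ => ∑ i ∈ range m, (∫ v in Set.Ioi (0:ℝ),
      Real.exp (-(v * t)) * Bf Q j₀ y f (j₀ + i) v)) Filter.atTop
      (nhds (((∑' n : ℕ, E Q j₀ y t⁻¹ n) -
        (vv Q j₀ 1) ^ 2 * Real.exp (-(vv Q j₀ 1 * t⁻¹)) -
        ((∫ v in Set.Ioi (0:ℝ), Real.exp (-(v * t⁻¹)) * f v) -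
          ∫ u in (0:ℝ)..1, f u * Real.exp (-(u * t⁻¹)))) / t ^ (4 * Q + 4))) := by
    simp only [hpart]
    apply Filter.Tendsto.div_const
    apply Filter.Tendsto.sub
    · apply Filter.Tendsto.sub_const
      have hE := (sumE Q j₀ y hQ hj1 hC t⁻¹ (inv_pos.mpr ht)).hasSum.tendsto_sum_nat
      refine hE.comp ?_
      refine Filter.tendsto_atTop_mono (fun m => ?_) Filter.tendsto_id
      have h3 : j₀ + m ≤ (j₀ + m) ^ (2 * Q) := Nat.le_self_pow (by omega) _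
      simp only [id]
      omega
    · apply Filter.Tendsto.sub_const
      exact hlim t⁻¹ (inv_pos.mpr ht)
  have huniq := tendsto_nhds_unique htend hlim2
  have htk : t ^ (4 * Q + 4) ≠ 0 := by positivity
  rw [div_eq_mul_inv (vv Q j₀ 1) t] at huniq
  clear htend hlim2 hsum hpart hval
  generalize (∫ v in Set.Ioi (0:ℝ), Real.exp (-(v * t)) * f v) = X at huniq ⊢
  generalize (∫ v in Set.Ioi (0:ℝ), Real.exp (-(v * t⁻¹)) * f v) = X2 at huniq ⊢
  generalize (∑' n : ℕ, E Q j₀ y t⁻¹ n) = Sg at huniq ⊢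
  generalize (∫ u in (0:ℝ)..1, f u * Real.exp (-(u * t⁻¹))) = I at huniq
  generalize Real.exp (-(vv Q j₀ 1 * t⁻¹)) = e at huniq
  generalize t ^ (4 * Q + 4) = T at huniq htk ⊢
  field_simp at huniq
  linarith

theorem taskTheta : TaskTheta := by
  intro h1 h2 Q j₀ a0 y f hQ hj hsol hC t ht
  have hA := lap h1 h2 Q j₀ a0 y f hQ hj hsol hC t ht
  have hB := lap h1 h2 Q j₀ a0 y f hQ hj hsol hC t⁻¹ (inv_pos.mpr ht)
  rw [inv_inv] at hB
  have htk : t ^ (4 * Q + 4) ≠ 0 := by positivity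
  have hB' : ∫ v in Set.Ioi (0:ℝ), Real.exp (-(v * t⁻¹)) * f v =
      t ^ (4 * Q + 4) * (∑' n : ℕ, E Q j₀ y t n - ∫ v in Set.Ioi (0:ℝ), Real.exp (-(v * t)) * f v) := by
    rw [← hB, inv_pow, ← mul_assoc, mul_inv_cancel₀ htk, one_mul]
  have hfin : ∑' n : ℕ, E Q j₀ y t⁻¹ n = t ^ (4 * Q + 4) * ∑' n : ℕ, E Q j₀ y t n := by
    linarith
  have e1 : ∀ n : ℕ, cf y n * (vv Q j₀ n) ^ 2 * Real.exp (-(vv Q j₀ n / t)) = E Q j₀ y t⁻¹ n := by
    intro n
    rw [E, div_eq_mul_inv]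
  simp only [e1]
  exact hfin

end Pool.Agent.H993R3.BC
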